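import Pool.Agent.Q145.PC.Main

/-!
# The complement of a pairwise compatibility graph need not be a 2-AND-PCG

`IsPCG` and `IsAndPCG` are the notions of the problem, for arbitrary finite trees with nonnegative
edge weights and arbitrary intervals, see `Pool.Agent.Q145.PC.Defs`. `bip t p q` is the disjoint
union of `t` complete bipartite graphs `K_{p,q}`.
-/

set_option autoImplicit false

namespace Pool.Agent.Results.MP_488b30_co.ComplementNotAnd

open Pool.Agent.Q145.PC

/-- For every `k ≥ 1` the disjoint union of `k + 1` complete bipartite graphs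
`K_{k+1, k(k+1)^2+1}` is a pairwise compatibility graph whose complement is not the intersection of
`k` pairwise compatibility graphs. In particular (`k = 2`) the complement of a pairwise
compatibility graph need not be a 2-AND-PCG. -/
theorem result :
    (∀ k : ℕ, 1 ≤ k →
      IsPCG (bip (k + 1) (k + 1) (k * ((k + 1) * (k + 1)) + 1)) ∧
      ¬ IsAndPCG k (bip (k + 1) (k + 1) (k * ((k + 1) * (k + 1)) + 1))ᶜ) ∧
    ¬ ∀ (V : Type) (_ : Finite V) (G : SimpleGraph V), IsPCG G → IsAndPCG 2 Gᶜ := by
  have h : ∀ k : ℕ, 1 ≤ k →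
      IsPCG (bip (k + 1) (k + 1) (k * ((k + 1) * (k + 1)) + 1)) ∧
      ¬ IsAndPCG k (bip (k + 1) (k + 1) (k * ((k + 1) * (k + 1)) + 1))ᶜ :=
    fun k hk => ⟨bip_isPCG (by omega) (by omega), not_and (Nat.lt_succ_self _)⟩
  refine ⟨h, fun hall => ?_⟩
  exact (h 2 (by norm_num)).2 (hall _ inferInstance _ (h 2 (by norm_num)).1)

end Pool.Agent.Results.MP_488b30_co.ComplementNotAnd
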